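import Mathlib
import Pool.Agent.Q64.RL.Stm

/-! Job GEO of project RL (helper64): the dual variety of a reciprocal linear space. -/

set_option autoImplicit false

open Finset MvPolynomial

namespace Pool.Agent.Q111.RL

open Pool.Agent.Q64.RL

variable {ι : Type} [Fintype ι] [DecidableEq ι]

omit [DecidableEq ι] in
lemma eval_scale {G : MvPolynomial ι ℂ} {m : ℕ} (h : G.IsHomogeneous m) (c : ℂ) (z : ι → ℂ) :
    eval (fun i => c * z i) G = c ^ m * eval z G := by
  rw [eval_eq', eval_eq', Finset.mul_sum]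
  refine Finset.sum_congr rfl fun d hd => ?_
  have h1 : ∑ i, d i = m := by
    have := h (mem_support_iff.1 hd)
    rw [Finsupp.weight_apply, Finsupp.sum_fintype _ _ (by simp)] at this
    simpa using this
  rw [← h1, ← Finset.prod_pow_eq_pow_sum]
  simp only [mul_pow, Finset.prod_mul_distrib]
  ring

/-- the chain rule -/
lemma chain (G : MvPolynomial ι ℂ) (z : ℂ → ι → ℂ) (z' : ι → ℂ) (t : ℂ)
    (h : ∀ i, HasDerivAt (fun s => z s i) (z' i) t) :
    HasDerivAt (fun s => eval (z s) G) (∑ i, eval (z t) (pderiv i G) * z' i) t := by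
  induction G using MvPolynomial.induction_on with
  | C c =>
    simpa using hasDerivAt_const t c
  | add p q hp hq =>
    have h1 := hp.add hq
    have h2 : ∑ i, eval (z t) (pderiv i (p + q)) * z' i =
        ∑ i, eval (z t) (pderiv i p) * z' i + ∑ i, eval (z t) (pderiv i q) * z' i := by
      rw [← Finset.sum_add_distrib]
      exact Finset.sum_congr rfl fun i _ => by rw [map_add, map_add, add_mul]
    rw [h2]
    refine h1.congr_of_eventuallyEq (Filter.Eventually.of_forall fun s => ?_)
    simp
  | mul_X p j hp =>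
    have h1 := hp.mul (h j)
    have h2 : ∑ i, eval (z t) (pderiv i (p * X j)) * z' i =
        (∑ i, eval (z t) (pderiv i p) * z' i) * z t j + eval (z t) p * z' j := by
      have h3 : ∀ i, eval (z t) (pderiv i (p * X j)) * z' i =
          eval (z t) (pderiv i p) * z' i * z t j + (if i = j then eval (z t) p * z' j else 0) := by
        intro i
        rw [Derivation.leibniz, map_add, smul_eq_mul, smul_eq_mul, map_mul, map_mul, eval_X,
          pderiv_X, Pi.single_apply]
        by_cases hij : i = j
        · subst hij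
          simp
          ring
        · have hji : ¬ j = i := fun h => hij h.symm
          simp [hij, hji]
          ring
      rw [Finset.sum_congr rfl fun i _ => h3 i, Finset.sum_add_distrib, ← Finset.sum_mul,
        Finset.sum_ite_eq' Finset.univ j]
      simp
    rw [h2]
    refine h1.congr_of_eventuallyEq (Filter.Eventually.of_forall fun s => ?_)
    simp

omit [DecidableEq ι] in
/-- a polynomial vanishing on a cone vanishes on its closure -/
lemma cone (A : Set (ι → ℂ)) (hA : ∀ a ∈ A, ∀ c : ℂ, c ≠ 0 → (fun i => c * a i) ∈ A)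
    (G : MvPolynomial ι ℂ) (hG : ∀ a ∈ A, eval a G = 0) (z : ι → ℂ) (hz : z ∈ Cl A) :
    eval z G = 0 := by
  have h1 : ∀ m, ∀ a ∈ A, eval a (homogeneousComponent m G) = 0 := by
    intro m a ha
    by_cases hm : m < G.totalDegree + 1
    swap
    · rw [homogeneousComponent_eq_zero _ _ (by omega), map_zero]
    set f : Polynomial ℂ := ∑ j ∈ range (G.totalDegree + 1),
      Polynomial.C (eval a (homogeneousComponent j G)) * Polynomial.X ^ j with hf
    have hf0 : ∀ c : ℂ, c ≠ 0 → f.eval c = 0 := by
      intro c hc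
      have h2 := hG _ (hA a ha c hc)
      rw [← sum_homogeneousComponent G, map_sum] at h2
      rw [hf, Polynomial.eval_finsetSum, ← h2]
      refine Finset.sum_congr rfl fun j _ => ?_
      rw [eval_scale (homogeneousComponent_isHomogeneous j G)]
      simp
      ring
    have hf1 : f = 0 := by
      refine Polynomial.eq_zero_of_infinite_isRoot f ?_
      refine Set.Infinite.mono (s := {c : ℂ | c ≠ 0}) (fun c hc => hf0 c hc) ?_
      exact (Set.finite_singleton (0 : ℂ)).infinite_compl
    have h3 := congrArg (fun p : Polynomial ℂ => p.coeff m) hf1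
    simp only [hf, Polynomial.finsetSum_coeff, Polynomial.coeff_C_mul, Polynomial.coeff_X_pow,
      Polynomial.coeff_zero] at h3
    rw [Finset.sum_eq_single m] at h3
    · simpa using h3
    · intro b _ hb
      rw [if_neg (Ne.symm hb), mul_zero]
    · intro h
      exact absurd (Finset.mem_range.2 hm) h
  rw [← sum_homogeneousComponent G, map_sum]
  exact Finset.sum_eq_zero fun j _ => hz.2 _ j (homogeneousComponent_isHomogeneous j G)
    fun a ha _ => h1 j a ha

/-- the reciprocals of the vectors of `L` without zero coordinates -/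
def P (L : Submodule ℂ (ι → ℂ)) : Set (ι → ℂ) :=
  {z | ∃ a ∈ L, (∀ i, a i ≠ 0) ∧ z = fun i => (a i)⁻¹}

omit [Fintype ι] [DecidableEq ι] in
lemma P_cone (L : Submodule ℂ (ι → ℂ)) :
    ∀ a ∈ P L, ∀ c : ℂ, c ≠ 0 → (fun i => c * a i) ∈ P L := by
  rintro z ⟨a, ha, ha0, rfl⟩ c hc
  refine ⟨c⁻¹ • a, L.smul_mem _ ha, fun i => ?_, ?_⟩
  · simp [hc, ha0 i]
  · funext i
    simp [mul_comm]

omit [DecidableEq ι] in
/-- all polynomials vanishing on `P` vanish on the variety -/
lemma recip_zero (L : Submodule ℂ (ι → ℂ)) (G : MvPolynomial ι ℂ)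
    (hG : ∀ a ∈ P L, eval a G = 0) (z : ι → ℂ) (hz : z ∈ Recip L) : eval z G = 0 :=
  cone (P L) (P_cone L) G hG z hz

omit [Fintype ι] [DecidableEq ι] in
lemma P_sub (L : Submodule ℂ (ι → ℂ)) (z : ι → ℂ) (hz : z ∈ P L) (hz0 : z ≠ 0) : z ∈ Recip L :=
  ⟨hz0, fun _ _ _ h => h z hz hz0⟩

omit [DecidableEq ι] in
/-- vanishing on the variety, for homogeneous polynomials -/
lemma vanish_iff (L : Submodule ℂ (ι → ℂ)) (hι : Nonempty ι) (G : MvPolynomial ι ℂ) :
    (∀ q ∈ Recip L, eval q G = 0) ↔ ∀ a ∈ P L, eval a G = 0 := by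
  constructor
  · intro h a ha
    refine h a (P_sub L a ha ?_)
    obtain ⟨b, hb, hb0, rfl⟩ := ha
    intro h0
    obtain ⟨i⟩ := hι
    have := congrFun h0 i
    simp [hb0 i] at this
  · intro h q hq
    exact recip_zero L G h q hq

/-- the tangent spaces at the points of `P` -/
lemma tan_P (hperp : S_perp) (L : Submodule ℂ (ι → ℂ)) (hι : Nonempty ι) (a : ι → ℂ) (ha : a ∈ L)
    (ha0 : ∀ i, a i ≠ 0) (u : ι → ℂ) :
    u ∈ Tan (Recip L) (fun i => (a i)⁻¹) ↔ (fun i => u i * a i ^ 2) ∈ L := by
  constructor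
  · intro hu
    refine (hperp ℂ ι L).1 _ fun c hc => ?_
    -- the equation of the relation `c`
    set G : MvPolynomial ι ℂ := ∑ i, C (c i) * ∏ j ∈ univ.erase i, X j with hG
    have hGh : G.IsHomogeneous (Fintype.card ι - 1) := by
      refine IsHomogeneous.sum _ _ _ fun i _ => ?_
      have h1 : (∏ j ∈ univ.erase i, (X j : MvPolynomial ι ℂ)).IsHomogeneous
          (∑ j ∈ univ.erase i, 1) := IsHomogeneous.prod _ _ _ fun j _ => isHomogeneous_X ℂ j
      rw [Finset.sum_const, smul_eq_mul, mul_one, Finset.card_erase_of_mem (Finset.mem_univ i),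
        Finset.card_univ] at h1
      exact h1.C_mul _
    have hev : ∀ z : ι → ℂ, (∀ i, z i ≠ 0) → eval z G = (∏ i, z i) * ∑ i, c i * (z i)⁻¹ := by
      intro z hz
      rw [hG, map_sum, Finset.mul_sum]
      refine Finset.sum_congr rfl fun i _ => ?_
      rw [map_mul, eval_C, map_prod, ← Finset.mul_prod_erase univ z (Finset.mem_univ i)]
      simp only [eval_X]
      field_simp [hz i]
    have hGP : ∀ z ∈ P L, eval z G = 0 := by
      rintro z ⟨b, hb, hb0, rfl⟩
      rw [hev _ fun i => inv_ne_zero (hb0 i)]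
      have h1 : ∑ i, c i * ((b i)⁻¹)⁻¹ = 0 := by
        rw [← hc b hb]
        exact Finset.sum_congr rfl fun i _ => by rw [inv_inv, mul_comm]
      rw [h1, mul_zero]
    have h1 := hu G _ hGh ((vanish_iff L hι G).2 hGP)
    -- the derivative
    set p : ι → ℂ := fun i => (a i)⁻¹ with hp
    have hp0 : ∀ i, p i ≠ 0 := fun i => inv_ne_zero (ha0 i)
    have h2 := chain G (fun t i => p i + t * u i) u 0 (fun i => by
      simpa using ((hasDerivAt_id (0 : ℂ)).mul_const (u i)).const_add (p i))
    have h3 : ∀ᶠ t in nhds (0 : ℂ), ∀ i, p i + t * u i ≠ 0 := by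
      rw [Filter.eventually_all]
      intro i
      have : ContinuousAt (fun t : ℂ => p i + t * u i) 0 := by fun_prop
      refine this.eventually_ne ?_
      simpa using hp0 i
    have h4 : ∀ i, HasDerivAt (fun t : ℂ => c i * (p i + t * u i)⁻¹)
        (c i * (-(u i) / (p i) ^ 2)) 0 := by
      intro i
      have h5 : HasDerivAt (fun t : ℂ => p i + t * u i) (u i) 0 := by
        simpa using ((hasDerivAt_id (0 : ℂ)).mul_const (u i)).const_add (p i)
      have h6 := h5.inv (by simpa using hp0 i)
      simpa using h6.const_mul (c i)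
    have h5 := HasDerivAt.fun_sum (u := univ) fun i _ => h4 i
    have h6 : ∃ d, HasDerivAt (fun t : ℂ => ∏ i, (p i + t * u i)) d 0 := by
      have : Differentiable ℂ (fun t : ℂ => ∏ i, (p i + t * u i)) := by fun_prop
      exact ⟨_, (this 0).hasDerivAt⟩
    obtain ⟨d, hd⟩ := h6
    have h7 := hd.mul h5
    have h8 : HasDerivAt (fun t : ℂ => eval (fun i => p i + t * u i) G)
        (d * (∑ i, c i * (p i + 0 * u i)⁻¹) + (∏ i, (p i + 0 * u i)) *
          ∑ i, c i * (-(u i) / (p i) ^ 2)) 0 := by
      refine h7.congr_of_eventuallyEq ?_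
      filter_upwards [h3] with t ht
      exact hev _ ht
    have h9 := h2.unique h8
    simp only [zero_mul, add_zero] at h9
    have h10 : ∑ i, c i * (p i)⁻¹ = 0 := by
      rw [← hc a ha]
      exact Finset.sum_congr rfl fun i _ => by rw [hp]; dsimp only; rw [inv_inv, mul_comm]
    rw [h1, h10, mul_zero, zero_add] at h9
    have h11 := (mul_eq_zero.1 h9.symm).resolve_left (Finset.prod_ne_zero_iff.2 fun i _ => hp0 i)
    rw [← neg_eq_zero, ← h11, ← Finset.sum_neg_distrib]
    refine Finset.sum_congr rfl fun i _ => ?_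
    rw [hp]
    dsimp only
    field_simp [ha0 i]
  · intro hu G m hG hGX
    rw [vanish_iff L hι] at hGX
    set c : ι → ℂ := fun i => u i * a i ^ 2 with hc
    have h1 : ∀ i, HasDerivAt (fun t : ℂ => (a i - t * c i)⁻¹) (u i) 0 := by
      intro i
      have h2 : HasDerivAt (fun t : ℂ => a i - t * c i) (-c i) 0 := by
        simpa using ((hasDerivAt_id (0 : ℂ)).mul_const (c i)).const_sub (a i)
      have h3 := h2.inv (by simpa using ha0 i)
      have h4 : -(-c i) / (a i - 0 * c i) ^ 2 = u i := by
        rw [hc]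
        have := ha0 i
        field_simp
        ring
      rwa [h4] at h3
    have h2 := chain G (fun t i => (a i - t * c i)⁻¹) u 0 h1
    have h3 : ∀ᶠ t in nhds (0 : ℂ), ∀ i, a i - t * c i ≠ 0 := by
      rw [Filter.eventually_all]
      intro i
      have : ContinuousAt (fun t : ℂ => a i - t * c i) 0 := by fun_prop
      refine this.eventually_ne ?_
      simpa using ha0 i
    have h4 : HasDerivAt (fun t : ℂ => eval (fun i => (a i - t * c i)⁻¹) G) 0 0 := by
      refine (hasDerivAt_const (0 : ℂ) (0 : ℂ)).congr_of_eventuallyEq ?_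
      filter_upwards [h3] with t ht
      refine hGX _ ⟨fun i => a i - t * c i, ?_, ht, rfl⟩
      have := L.sub_mem ha (L.smul_mem t hu)
      exact this
    have h5 := h2.unique h4
    simpa using h5

/-- the dimension of the tangent space at a point of `P` -/
lemma finrank_tan_P (hperp : S_perp) (L : Submodule ℂ (ι → ℂ)) (hι : Nonempty ι) (a : ι → ℂ)
    (ha : a ∈ L) (ha0 : ∀ i, a i ≠ 0) :
    Module.finrank ℂ (Tan (Recip L) (fun i => (a i)⁻¹)) = Module.finrank ℂ L := by
  let e : (ι → ℂ) ≃ₗ[ℂ] (ι → ℂ) := LinearEquiv.ofLinearMap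
    (LinearMap.pi fun i => (a i ^ 2) • LinearMap.proj i)
    (LinearMap.pi fun i => ((a i ^ 2)⁻¹) • LinearMap.proj i)
    (by
      ext v i
      have := ha0 i
      simp [this])
    (by
      ext v i
      have := ha0 i
      simp [this])
  have h1 : (Tan (Recip L) (fun i => (a i)⁻¹)).map (e : (ι → ℂ) →ₗ[ℂ] (ι → ℂ)) = L := by
    ext v
    rw [Submodule.mem_map]
    constructor
    · rintro ⟨u, hu, rfl⟩
      rw [tan_P hperp L hι a ha ha0] at hu
      have : (e : (ι → ℂ) →ₗ[ℂ] (ι → ℂ)) u = fun i => u i * a i ^ 2 := by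
        funext i
        show (a i ^ 2) • u i = _
        rw [smul_eq_mul, mul_comm]
      rw [this]
      exact hu
    · intro hv
      refine ⟨e.symm v, ?_, e.apply_symm_apply v⟩
      rw [tan_P hperp L hι a ha ha0]
      have : (fun i => (e.symm v) i * a i ^ 2) = v := by
        funext i
        show ((a i ^ 2)⁻¹ • v i) * a i ^ 2 = v i
        have := ha0 i
        rw [smul_eq_mul]
        field_simp
      rw [this]
      exact hv
  rw [← LinearEquiv.finrank_map_eq e (Tan (Recip L) (fun i => (a i)⁻¹))]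
  exact congrArg (fun M : Submodule ℂ (ι → ℂ) => Module.finrank ℂ M) h1

/-- the gradients of the homogeneous equations at `q` -/
def Dq (X : Set (ι → ℂ)) (q : ι → ℂ) : Set (ι → ℂ) :=
  {g | ∃ (G : MvPolynomial ι ℂ) (m : ℕ), G.IsHomogeneous m ∧ (∀ x ∈ X, eval x G = 0) ∧
    g = fun i => eval q (pderiv i G)}

/-- the dimension of the tangent spaces is at least the dimension of `L` -/
lemma finrank_tan_le (hperp : S_perp) (L : Submodule ℂ (ι → ℂ)) (hι : Nonempty ι) (q : ι → ℂ)
    (hq : q ∈ Recip L) : Module.finrank ℂ L ≤ Module.finrank ℂ (Tan (Recip L) q) := by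
  classical
  obtain ⟨b, hbD, hbs, hbl⟩ := exists_linearIndependent ℂ (Dq (Recip L) q)
  have hfin : Finite b := hbl.finite
  let _ : Fintype b := Fintype.ofFinite b
  have hch : ∀ k : b, ∃ (G : MvPolynomial ι ℂ) (m : ℕ), G.IsHomogeneous m ∧
      (∀ x ∈ Recip L, eval x G = 0) ∧ (k : ι → ℂ) = fun i => eval q (pderiv i G) :=
    fun k => hbD k.2
  choose G m hGh hGX hGq using hch
  let A : (ι → ℂ) → Matrix b ι ℂ := fun z => Matrix.of fun k i => eval z (pderiv i (G k))
  have hA : ∀ z u k, (A z).mulVecLin u k = ∑ i, eval z (pderiv i (G k)) * u i := by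
    intro z u k
    rw [Matrix.mulVecLin_apply, Matrix.mulVec, dotProduct]
    rfl
  -- the kernel at `q` is the tangent space
  have hker : LinearMap.ker (A q).mulVecLin ≤ Tan (Recip L) q := by
    intro u hu H m' hH hHX
    have h1 : ∀ g ∈ Submodule.span ℂ (Dq (Recip L) q), ∑ i, g i * u i = 0 := by
      intro g hg
      rw [← hbs] at hg
      induction hg using Submodule.span_induction with
      | mem g hg =>
        have h2 := congrFun (LinearMap.mem_ker.1 hu) ⟨g, hg⟩
        rw [hA] at h2
        have h3 := hGq ⟨g, hg⟩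
        have h4 : ∀ i, g i = eval q (pderiv i (G ⟨g, hg⟩)) := fun i => congrFun h3 i
        simp only [h4]
        exact h2
      | zero => simp
      | add x y _ _ hx hy =>
        simp only [Pi.add_apply, add_mul, Finset.sum_add_distrib, hx, hy, add_zero]
      | smul c x _ hx =>
        simp only [Pi.smul_apply, smul_eq_mul, mul_assoc, ← Finset.mul_sum, hx, mul_zero]
    exact h1 _ (Submodule.subset_span ⟨H, m', hH, hHX, rfl⟩)
  have hdim : ∀ z, Module.finrank ℂ (LinearMap.range (A z).mulVecLin) +
      Module.finrank ℂ (LinearMap.ker (A z).mulVecLin) = Fintype.card ι := by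
    intro z
    rw [LinearMap.finrank_range_add_finrank_ker, Module.finrank_fintype_fun_eq_card]
  have hle : Fintype.card b + Module.finrank ℂ L ≤ Fintype.card ι := by
    by_contra hcon
    push Not at hcon
    -- a left inverse
    have hinj : Function.Injective (Fintype.linearCombination ℂ (fun k : b => (k : ι → ℂ))) :=
      hbl.fintypeLinearCombination_injective
    obtain ⟨f, hf⟩ := (Fintype.linearCombination ℂ
      (fun k : b => (k : ι → ℂ))).exists_leftInverse_of_injective (LinearMap.ker_eq_bot.2 hinj)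
    have hfk : ∀ k : b, f (k : ι → ℂ) = Pi.single k 1 := by
      intro k
      have h1 := LinearMap.congr_fun hf (Pi.single k 1)
      rw [LinearMap.comp_apply, LinearMap.id_apply, Fintype.linearCombination_apply] at h1
      rw [← h1, Finset.sum_eq_single k]
      · simp
      · intro j _ hj
        simp [Pi.single_eq_of_ne hj]
      · simp
    let M : Matrix b b (MvPolynomial ι ℂ) := Matrix.of fun k l =>
      ∑ i, C (f (Pi.single i 1) l) * pderiv i (G k)
    have hM : ∀ z, eval z M.det = (Matrix.of fun k l =>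
        f (fun i => eval z (pderiv i (G k))) l : Matrix b b ℂ).det := by
      intro z
      rw [RingHom.map_det]
      congr 1
      ext k l
      simp only [RingHom.mapMatrix_apply, Matrix.map_apply, M, Matrix.of_apply, map_sum, map_mul,
        eval_C]
      rw [LinearMap.pi_apply_eq_sum_univ f (fun i => eval z (pderiv i (G k)))]
      rw [Finset.sum_apply]
      refine Finset.sum_congr rfl fun i _ => ?_
      have h0 : (Pi.single i 1 : ι → ℂ) = fun j => if i = j then 1 else 0 := by
        funext j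
        rw [Pi.single_apply]
        by_cases h : i = j
        · rw [if_pos h, if_pos h.symm]
        · rw [if_neg h, if_neg (Ne.symm h)]
      rw [Pi.smul_apply, smul_eq_mul, mul_comm, h0]
    have hMP : ∀ z ∈ P L, eval z M.det = 0 := by
      rintro z ⟨a, ha, ha0, rfl⟩
      set z : ι → ℂ := fun i => (a i)⁻¹ with hz
      rw [hM]
      have hnl : ¬ LinearIndependent ℂ (fun k : b => fun i => eval z (pderiv i (G k))) := by
        intro hl
        have h1 : (A z).rank = Fintype.card b := LinearIndependent.rank_matrix hl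
        have h2 := hdim z
        have h3 : Tan (Recip L) z ≤ LinearMap.ker (A z).mulVecLin := by
          intro u hu
          rw [LinearMap.mem_ker]
          funext k
          rw [hA]
          exact hu (G k) (m k) (hGh k) (hGX k)
        have h4 := Submodule.finrank_mono h3
        have h5 : Module.finrank ℂ (Tan (Recip L) z) = Module.finrank ℂ L :=
          finrank_tan_P hperp L hι a ha ha0
        rw [Matrix.rank] at h1
        omega
      rw [Fintype.linearIndependent_iff] at hnl
      push Not at hnl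
      obtain ⟨c, hc, k0, hk0⟩ := hnl
      rw [← Matrix.exists_vecMul_eq_zero_iff]
      refine ⟨c, fun h => hk0 (congrFun h k0), ?_⟩
      have h1 := congrArg f hc
      rw [map_sum, map_zero] at h1
      simp only [map_smul] at h1
      funext l
      have h2 := congrFun h1 l
      rw [Finset.sum_apply] at h2
      rw [Matrix.vecMul, dotProduct]
      exact h2
    have h1 := recip_zero L M.det hMP q hq
    rw [hM] at h1
    have h2 : (Matrix.of fun k l => f (fun i => eval q (pderiv i (G k))) l : Matrix b b ℂ) = 1 := by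
      ext k l
      rw [Matrix.of_apply, ← hGq k, hfk k, Matrix.one_apply, Pi.single_apply]
      by_cases h : k = l
      · rw [if_pos h, if_pos h.symm]
      · rw [if_neg h, if_neg (Ne.symm h)]
    rw [h2, Matrix.det_one] at h1
    exact one_ne_zero h1
  have h1 := Submodule.finrank_mono hker
  have h2 := hdim q
  have h3 : Module.finrank ℂ (LinearMap.range (A q).mulVecLin) ≤ Fintype.card b := by
    have := Submodule.finrank_le (LinearMap.range (A q).mulVecLin)
    rwa [Module.finrank_fintype_fun_eq_card] at this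
  omega

/-- the points of `P` are smooth -/
lemma smooth_P (hperp : S_perp) (L : Submodule ℂ (ι → ℂ)) (hι : Nonempty ι) (a : ι → ℂ)
    (ha : a ∈ L) (ha0 : ∀ i, a i ≠ 0) : Smooth (Recip L) (fun i => (a i)⁻¹) := by
  refine ⟨P_sub L _ ⟨a, ha, ha0, rfl⟩ ?_, fun q hq => ?_⟩
  · intro h0
    obtain ⟨i⟩ := hι
    have := congrFun h0 i
    simp [ha0 i] at this
  · rw [finrank_tan_P hperp L hι a ha ha0]
    exact finrank_tan_le hperp L hι q hq

omit [Fintype ι] [DecidableEq ι] in
lemma eval_bind (φ : ι → MvPolynomial ι ℂ) (G : MvPolynomial ι ℂ) (z : ι → ℂ) :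
    eval z (bind₁ φ G) = eval (fun i => eval z (φ i)) G := by
  induction G using MvPolynomial.induction_on with
  | C r => simp
  | add p q hp hq => rw [map_add, map_add, map_add, hp, hq]
  | mul_X p i hp => rw [map_mul, map_mul, map_mul, hp, bind₁_X_right, eval_X]

/-- the polynomials which vanish on the vectors `a^2 b` vanish on the conormal vectors -/
lemma conormal (hperp : S_perp) (L : Submodule ℂ (ι → ℂ)) (hι : Nonempty ι)
    (G : MvPolynomial ι ℂ)
    (hG : ∀ a ∈ L, (∀ i, a i ≠ 0) → ∀ b : ι → ℂ, (∀ v ∈ L, ∑ i, v i * b i = 0) →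
      eval (fun i => a i ^ 2 * b i) G = 0) (q : ι → ℂ) (hq : q ∈ Recip L) (y : ι → ℂ)
    (hy : ∀ u ∈ Tan (Recip L) q, ∑ i, y i * u i = 0) : eval y G = 0 := by
  have h1 : y ∈ Submodule.span ℂ (Dq (Recip L) q) := by
    refine (hperp ℂ ι _).1 y fun a ha => hy a ?_
    intro H m hH hHX
    exact ha _ (Submodule.subset_span ⟨H, m, hH, hHX, rfl⟩)
  obtain ⟨n, c, g, hcg⟩ := Submodule.mem_span_set'.1 h1
  have hch : ∀ j : Fin n, ∃ (H : MvPolynomial ι ℂ) (m : ℕ), H.IsHomogeneous m ∧
      (∀ x ∈ Recip L, eval x H = 0) ∧ (g j : ι → ℂ) = fun i => eval q (pderiv i H) :=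
    fun j => (g j).2
  choose H m hHh hHX hHq using hch
  let φ : ι → MvPolynomial ι ℂ := fun i => ∑ j, C (c j) * pderiv i (H j)
  have hφ : ∀ z, eval z (bind₁ φ G) = eval (fun i => ∑ j, c j * eval z (pderiv i (H j))) G := by
    intro z
    rw [eval_bind]
    congr 2
    funext i
    simp [φ]
  have h2 : ∀ z ∈ P L, eval z (bind₁ φ G) = 0 := by
    rintro z ⟨a, ha, ha0, rfl⟩
    rw [hφ]
    set v : ι → ℂ := fun i => ∑ j, c j * eval (fun i => (a i)⁻¹) (pderiv i (H j)) with hv
    have h3 := hG a ha ha0 (fun i => v i / a i ^ 2) (by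
      intro w hw
      have h4 : (fun i => w i / a i ^ 2) ∈ Tan (Recip L) (fun i => (a i)⁻¹) := by
        rw [tan_P hperp L hι a ha ha0]
        have : (fun i => w i / a i ^ 2 * a i ^ 2) = w := by
          funext i
          have := ha0 i
          field_simp
        rw [this]
        exact hw
      have h5 : ∑ i, w i * (v i / a i ^ 2) =
          ∑ j, c j * ∑ i, eval (fun i => (a i)⁻¹) (pderiv i (H j)) * (w i / a i ^ 2) := by
        simp only [hv, Finset.sum_div, Finset.mul_sum]
        rw [Finset.sum_comm]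
        exact Finset.sum_congr rfl fun j _ => Finset.sum_congr rfl fun i _ => by ring
      rw [h5]
      refine Finset.sum_eq_zero fun j _ => ?_
      rw [h4 (H j) (m j) (hHh j) (hHX j), mul_zero])
    have h4 : (fun i => a i ^ 2 * (v i / a i ^ 2)) = v := by
      funext i
      have := ha0 i
      field_simp
    rwa [h4] at h3
  have h3 := recip_zero L _ h2 q hq
  rw [hφ] at h3
  have h4 : (fun i => ∑ j, c j * eval q (pderiv i (H j))) = y := by
    rw [← hcg]
    funext i
    rw [Finset.sum_apply]
    refine Finset.sum_congr rfl fun j _ => ?_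
    rw [Pi.smul_apply, smul_eq_mul, hHq j]
  rwa [h4] at h3

theorem geo : S_perp → S_geo := by
  intro hperp ι _ _ L hL N F hFi hFh hF
  set W : Set (ι → ℂ) := {y | ∃ a ∈ L, (∀ i, a i ≠ 0) ∧ ∃ b : ι → ℂ,
    (∀ v ∈ L, ∑ i, v i * b i = 0) ∧ y = fun i => a i ^ 2 * b i} with hW
  have hFW : ∀ G : MvPolynomial ι ℂ, F ∣ G ↔ ∀ y ∈ W, eval y G = 0 := by
    intro G
    rw [hF]
    constructor
    · rintro h y ⟨a, ha, ha0, b, hb, rfl⟩
      exact h a ha ha0 b hb
    · intro h a ha ha0 b hb
      exact h _ ⟨a, ha, ha0, b, hb, rfl⟩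
  set gen : Set (ι → ℂ) := {y | y ≠ 0 ∧ ∃ p, Smooth (Recip L) p ∧
    ∀ u ∈ Tan (Recip L) p, ∑ i, y i * u i = 0} with hgen
  have hne : ∀ y : ι → ℂ, y ≠ 0 → Nonempty ι := by
    intro y hy
    by_contra h
    rw [not_nonempty_iff] at h
    exact hy (Subsingleton.elim _ _)
  have hWg : ∀ y ∈ W, y ≠ 0 → y ∈ gen := by
    rintro y ⟨a, ha, ha0, b, hb, rfl⟩ hy0
    refine ⟨hy0, fun i => (a i)⁻¹, smooth_P hperp L (hne _ hy0) a ha ha0, fun u hu => ?_⟩
    rw [tan_P hperp L (hne _ hy0) a ha ha0] at hu
    rw [← hb _ hu]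
    exact Finset.sum_congr rfl fun i _ => by ring
  have hgW : ∀ G : MvPolynomial ι ℂ, F ∣ G → ∀ y ∈ gen, eval y G = 0 := by
    rintro G hG y ⟨hy0, p, hp, hpu⟩
    exact conormal hperp L (hne _ hy0) G ((hF G).1 hG) p hp.1 y hpu
  have hgd : gen ⊆ Dual (Recip L) := by
    intro y hy
    exact ⟨hy.1, fun G m _ h => h y hy hy.1⟩
  have hzero : ∀ (G : MvPolynomial ι ℂ) (m : ℕ), G.IsHomogeneous m → 0 < m → eval 0 G = 0 := by
    intro G m hG hm
    have h1 := eval_scale hG 0 0
    rw [zero_pow hm.ne', zero_mul] at h1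
    have h2 : (fun i => (0 : ℂ) * (0 : ι → ℂ) i) = 0 := by
      funext i
      simp
    rwa [h2] at h1
  have hpos : ∀ (G : MvPolynomial ι ℂ) (m : ℕ), G.IsHomogeneous m → 0 < m →
      (∀ y ∈ gen, eval y G = 0) → F ∣ G := by
    intro G m hG hm h
    rw [hFW]
    intro y hy
    by_cases hy0 : y = 0
    · rw [hy0]
      exact hzero G m hG hm
    · exact h y (hWg y hy hy0)
  have hA : Dual (Recip L) = {y | y ≠ 0 ∧ eval y F = 0} := by
    ext y
    constructor
    · rintro ⟨hy0, hy⟩
      exact ⟨hy0, hy F N hFh fun a ha _ => hgW F dvd_rfl a ha⟩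
    · rintro ⟨hy0, hy⟩
      refine ⟨hy0, fun G m hG h => ?_⟩
      have h' : ∀ y ∈ gen, eval y G = 0 := fun y hy => h y hy hy.1
      rcases Nat.eq_zero_or_pos m with hm | hm
      · -- constants
        subst hm
        by_cases hex : ∃ w ∈ W, w ≠ 0
        · obtain ⟨w, hw, hw0⟩ := hex
          have h1 := h' w (hWg w hw hw0)
          have h2 := (totalDegree_zero_iff_isHomogeneous _).2 hG
          rw [totalDegree_eq_zero_iff_eq_C] at h2
          rw [h2, eval_C] at h1 ⊢
          exact h1
        · push Not at hex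
          exfalso
          apply hy0
          funext i
          have h1 : F ∣ X i := by
            rw [hFW]
            intro w hw
            rw [hex w hw, eval_X]
            rfl
          obtain ⟨H, hH⟩ := h1
          have h2 := congrArg (eval y) hH
          rw [map_mul, hy, zero_mul, eval_X] at h2
          exact h2
      · obtain ⟨H, hH⟩ := hpos G m hG hm h'
        rw [hH, map_mul, hy, zero_mul]
  refine ⟨hA, fun G m hG hm => ⟨fun h => hpos G m hG hm fun y hy => h y (hgd hy), ?_⟩⟩
  rintro ⟨H, hH⟩ y hy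
  rw [hA] at hy
  rw [hH, map_mul, hy.2, zero_mul]

end Pool.Agent.Q111.RL
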