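import Mathlib
import Pool.Agent.Q64.RL.Stm

/-! Job MAI of project RL (helper64): the degree. -/

set_option autoImplicit false

open Finset MvPolynomial

namespace Pool.Agent.Q111.RL

open Pool.Agent.Q64.RL

lemma mai_base (k ι : Type) [Field k] [Fintype ι] [DecidableEq ι]
    (L : Submodule k (ι → k)) (o : ι) (hc : Fintype.card ι = 1) (hL : L ≠ ⊥) : HasN L o 1 := by
  have ho : ∀ i, i = o := by
    have := Fintype.card_le_one_iff.1 hc.le
    exact fun i => this i o
  intro E _ _ x w hG
  refine ⟨fun h => absurd h one_ne_zero, fun _ => ?_⟩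
  obtain ⟨v, hv, hv0⟩ := Submodule.exists_mem_ne_zero_of_ne_bot hL
  have hvo : v o ≠ 0 := by
    intro h
    apply hv0
    funext i
    rw [ho i]
    exact h
  have hwo : w o = 0 := by
    have h1 := hG.hw v hv
    rw [Finset.sum_eq_single o] at h1
    · rcases mul_eq_zero.1 h1 with h2 | h2
      · exact absurd ((map_eq_zero _).1 h2) hvo
      · exact h2
    · intro i _ hi
      exact absurd (ho i) hi
    · simp
  have htop : (⊥ : IntermediateField k E) = ⊤ := by
    rw [← hG.gen, eq_comm, ← le_bot_iff, IntermediateField.adjoin_le_iff]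
    rintro y (⟨i, rfl⟩ | ⟨i, rfl⟩)
    · rw [ho i, hG.xo]
      exact one_mem _
    · rw [ho i, hwo]
      exact zero_mem _
  have hemp : IsEmpty {i : ι // i ≠ o} := ⟨fun i => i.2 (ho i.1)⟩
  refine ⟨?_, ?_⟩
  · rw [Good, algebraicIndependent_empty_type_iff]
    exact (algebraMap k E).injective
  · rw [dg, Set.range_eq_empty, IntermediateField.adjoin_empty, IntermediateField.finrank_bot']
    exact IntermediateField.bot_eq_top_iff_finrank_eq_one.1 htop

theorem mai : S_perp → S_stp → S_dis → S_tut → S_bet → S_rkf → S_mai := by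
  intro _ hstp hdis htut hbet hrkf
  have key : ∀ n : ℕ, ∀ (k ι : Type) [Field k] [CharZero k] [Fintype ι] [DecidableEq ι]
      (L : Submodule k (ι → k)) (o : ι), Fintype.card ι = n → Conn L →
      ∃ N : ℕ, N ≠ 0 ∧ (N : ℤ) = 2 ^ (rk L univ - 1) * beta L ∧ HasN L o N := by
    intro n
    induction n with
    | zero =>
      intro k ι _ _ _ _ L o hn _
      exact absurd hn (Fintype.card_pos_iff.2 ⟨o⟩).ne'
    | succ n ih =>
      intro k ι _ _ _ _ L o hn hC
      by_cases h1 : Fintype.card ι = 1
      · refine ⟨1, one_ne_zero, ?_, mai_base k ι L o h1 hC.1⟩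
        rw [(hbet k ι L).2.2.1 h1 hC.1]
        have h2 : rk L univ ≤ 1 := by
          rw [(hrkf k ι L).2.1]
          have := Submodule.finrank_le L
          rwa [Module.finrank_fintype_fun_eq_card, h1] at this
        have h3 : rk L univ - 1 = 0 := by omega
        rw [h3]
        norm_num
      · have h2 : 2 ≤ Fintype.card ι := by
          have : 0 < Fintype.card ι := Fintype.card_pos_iff.2 ⟨o⟩
          omega
        obtain ⟨hNL, hmin⟩ := htut k ι L h2 hC
        obtain ⟨e, he⟩ : ∃ e, e ≠ o := by
          have : 1 < Fintype.card ι := h2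
          exact Fintype.exists_ne_of_one_lt_card this o
        have hcard : Fintype.card {i : ι // i ≠ e} = n := by
          have h3 := Fintype.card_subtype_compl (fun i : ι => i = e)
          rw [Fintype.card_subtype_eq, hn] at h3
          have h4 : Fintype.card {i : ι // i ≠ e} = Fintype.card {i : ι // ¬ i = e} := rfl
          rw [h4, h3]
          rfl
        have hcase : ∀ L' : Submodule k ({i : ι // i ≠ e} → k), ∃ A : ℕ,
            (A : ℤ) = 2 ^ (rk L' univ - 1) * beta L' ∧ HasN L' ⟨o, he.symm⟩ A ∧
            (Conn L' → A ≠ 0) ∧ (¬ Conn L' → A = 0) := by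
          intro L'
          by_cases hC' : Conn L'
          · obtain ⟨A, h3, h4, h5⟩ := ih k {i : ι // i ≠ e} L' ⟨o, he.symm⟩ hcard hC'
            exact ⟨A, h4, h5, fun _ => h3, fun h => absurd hC' h⟩
          · refine ⟨0, ?_, hdis k _ L' _ hC', fun h => absurd h hC', fun _ => rfl⟩
            rw [(hbet k _ L').1 hC']
            simp
        obtain ⟨A, hA1, hA2, hA3, hA4⟩ := hcase (del L e)
        obtain ⟨B, hB1, hB2, hB3, hB4⟩ := hcase (con L e)
        have hloop : (¬ ∃ u ∈ L, u o = 0 ∧ u e ≠ 0) → B = 0 := by
          intro hno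
          refine hB4 fun hCc => hno ?_
          have h3 : ∃ v ∈ con L e, v ⟨o, he.symm⟩ ≠ 0 := by
            by_cases h4 : 2 ≤ Fintype.card {i : ι // i ≠ e}
            · exact (htut k _ _ h4 hCc).1.1 _
            · obtain ⟨v, hv, hv0⟩ := Submodule.exists_mem_ne_zero_of_ne_bot hCc.1
              refine ⟨v, hv, fun h5 => hv0 ?_⟩
              funext i
              have h6 : Fintype.card {i : ι // i ≠ e} ≤ 1 := by omega
              rw [Fintype.card_le_one_iff.1 h6 i ⟨o, he.symm⟩, h5]
              rfl
          obtain ⟨v, hv, hv0⟩ := h3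
          obtain ⟨u, hu, rfl⟩ := Submodule.mem_map.1 hv
          have hu1 : u ∈ L := hu.1
          have hu2 : u e = 0 := hu.2
          have hu3 : u o ≠ 0 := hv0
          obtain ⟨u', hu', hu'0⟩ := hNL.1 e
          refine ⟨u' - (u' o / u o) • u, L.sub_mem hu' (L.smul_mem _ hu1), ?_, ?_⟩
          · simp [hu3]
          · simpa [hu2] using hu'0
        have hN := hstp k ι L o e he A B hNL hA2 hB2 hloop
        obtain ⟨hr1, hr2⟩ := (hbet k ι L).2.2.2 hNL e
        have hbe := (hbet k ι L).2.1 h2 hNL e
        refine ⟨A + 2 * B, ?_, ?_, hN⟩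
        · rcases hmin e with h3 | h3
          · have := hA3 h3
            omega
          · have := hB3 h3
            omega
        · push_cast
          rw [hA1, hB1, hbe, hr1, mul_add]
          congr 1
          by_cases h3 : rk (con L e) univ = 0
          · have h4 : con L e = ⊥ := by
              rw [← Submodule.finrank_eq_zero (R := k), ← (hrkf k _ (con L e)).2.1, h3]
            have h5 : ¬ Conn (con L e) := fun h => h.1 h4
            rw [(hbet k _ _).1 h5]
            simp
          · have h4 : rk L univ - 1 = (rk (con L e) univ - 1) + 1 := by omega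
            rw [h4, pow_succ]
            ring
  intro k ι _ _ _ _ L o hC
  exact key _ k ι L o rfl hC

end Pool.Agent.Q111.RL
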