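import Mathlib
import Pool.Agent.Q64.RL.Stm

/-! Job TYB of project RL (helper64): places of type B. -/

set_option autoImplicit false

open Finset MvPolynomial

namespace Pool.Agent.Q111.RL.TB

open Pool.Agent.Q64.RL WithZero

section basic

variable {k E κ ι : Type} [Field k] [Field E] [Algebra k E] [Field κ] [Algebra k κ]
  {v : Valuation E ℤᵐ⁰} {ρ : E → κ}

lemma v_alg (ht : Triv k v) (c : k) : v (algebraMap k E c) ≤ 1 := by
  by_cases hc : c = 0
  · rw [hc, map_zero, map_zero]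
    exact zero_le
  · rw [ht c hc]

lemma v_lin (ht : Triv k v) (s : Finset ι) (a : ι → k) (y : ι → E) (hy : ∀ i ∈ s, v (y i) ≤ 1) :
    v (∑ i ∈ s, algebraMap k E (a i) * y i) ≤ 1 := by
  refine v.map_sum_le fun i hi => ?_
  rw [map_mul]
  exact mul_le_one' (v_alg ht _) (hy i hi)

lemma rho_lt (hρ : Place k v ρ) {a : E} (h : v a < 1) : ρ a = 0 := (hρ.zero a h.le).2 h

lemma rho_zero (hρ : Place k v ρ) : ρ 0 = 0 := rho_lt hρ (by rw [map_zero]; exact zero_lt_one)

lemma rho_one (hρ : Place k v ρ) : ρ 1 = 1 := by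
  have := hρ.alg 1
  rwa [map_one, map_one] at this

lemma rho_lin (hρ : Place k v ρ) (s : Finset ι) (a : ι → k) (y : ι → E)
    (hy : ∀ i ∈ s, v (y i) ≤ 1) :
    ρ (∑ i ∈ s, algebraMap k E (a i) * y i) = ∑ i ∈ s, algebraMap k κ (a i) * ρ (y i) := by
  classical
  induction s using Finset.induction_on with
  | empty => rw [sum_empty, sum_empty, rho_zero hρ]
  | insert i s hi ih =>
    have h1 : ∀ j ∈ s, v (y j) ≤ 1 := fun j hj => hy j (mem_insert_of_mem hj)
    have h2 := hy i (mem_insert_self i s)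
    have h3 : v (algebraMap k E (a i) * y i) ≤ 1 := by
      rw [map_mul]
      exact mul_le_one' (v_alg hρ.triv _) h2
    rw [sum_insert hi, sum_insert hi, hρ.add _ _ h3 (v_lin hρ.triv s a y h1), ih h1,
      hρ.mul _ _ (v_alg hρ.triv _) h2, hρ.alg]

lemma rho_neg (hρ : Place k v ρ) {a : E} (h : v a ≤ 1) : ρ (-a) = -ρ a := by
  have h1 := hρ.add a (-a) h (by rwa [Valuation.map_neg])
  rw [add_neg_cancel, rho_zero hρ] at h1
  exact (neg_eq_of_add_eq_zero_right h1.symm).symm

/-- the residues of the elements of the field generated by elements with independent residues -/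
lemma rho_adjoin (hplb : S_plb) (hρ : Place k v ρ) {J : Type} (y : J → E) (s : Set J)
    (hR : RInd k v y s) (K : IntermediateField k κ) (hK : ∀ j ∈ s, ρ (y j) ∈ K) (b : E)
    (hb : b ∈ IntermediateField.adjoin k (y '' s)) (hvb : v b ≤ 1) : ρ b ∈ K := by
  rw [Set.image_eq_range, IntermediateField.mem_adjoin_range_iff] at hb
  obtain ⟨r, t, hrt⟩ := hb
  by_cases ht : t = 0
  · rw [ht, map_zero, div_zero] at hrt
    rw [hrt, rho_zero hρ]
    exact zero_mem _
  have hy : ∀ j : s, v (y j) ≤ 1 := by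
    intro j
    have := hR (X j) (X_ne_zero j)
    rw [aeval_X] at this
    exact this.le
  have h1 := (hplb k E ℤᵐ⁰ κ v ρ hρ s (fun j => y j) hy).1
  have h2 : v (aeval (fun j : s => y j) t) = 1 := hR t ht
  have h3 : aeval (fun j : s => y j) t ≠ 0 := by
    intro h
    rw [h, map_zero] at h2
    exact zero_ne_one h2
  have h4 : b * aeval (fun j : s => y j) t = aeval (fun j : s => y j) r := by
    rw [hrt]
    exact div_mul_cancel₀ _ h3
  have h5 := hρ.mul b _ hvb h2.le
  rw [h4, (h1 r).2, (h1 t).2] at h5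
  have h6 : aeval (fun j : s => ρ (y j)) t ≠ 0 := by
    rw [← (h1 t).2]
    intro h
    have := (hρ.zero _ h2.le).1 h
    rw [h2] at this
    exact lt_irrefl _ this
  have h7 : ρ b = aeval (fun j : s => ρ (y j)) r / aeval (fun j : s => ρ (y j)) t := by
    rw [h5]
    field_simp
  have h8 : ∀ G : MvPolynomial s k, aeval (fun j : s => ρ (y j)) G ∈ K := by
    intro G
    induction G using MvPolynomial.induction_on with
    | C c => rw [aeval_C]; exact K.algebraMap_mem c
    | add p q hp hq => rw [map_add]; exact add_mem hp hq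
    | mul_X p j hp => rw [map_mul, aeval_X]; exact mul_mem hp (hK j j.2)
  rw [h7]
  exact div_mem (h8 r) (h8 t)

end basic

/-- the coordinates relative to a base which contains `o` and `e` -/
structure Setup {k ι E : Type} [Field k] [Fintype ι] [DecidableEq ι] [Field E] [Algebra k E]
    (L : Submodule k (ι → k)) (o e : ι) (x w : ι → E) (B : Finset ι) (c : ι → ι → k) : Prop where
  he : e ≠ o
  ho : o ∈ B
  heB : e ∈ B
  hG : Gen L o x w
  hxB : ∀ j ∉ B, x j = ∑ i ∈ B, algebraMap k E (c j i) * x i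
  hwB : ∀ i ∈ B, w i = - ∑ j ∈ Bᶜ, algebraMap k E (c j i) * w j
  hL : ∀ u ∈ L, ∀ j ∉ B, u j = ∑ i ∈ B, c j i * u i
  hL' : ∀ u : ι → k, (∀ j ∉ B, u j = ∑ i ∈ B, c j i * u i) → u ∈ L
  ai : AlgebraicIndependent k (fun i : {i // i ≠ o} => zf B x w i)
  ge : IntermediateField.adjoin k (Set.range fun i : {i // i ≠ o} => zf B x w i) = ⊤

section core

variable {k ι E : Type} [Field k] [Fintype ι] [DecidableEq ι] [Field E] [Algebra k E]
  {L : Submodule k (ι → k)} {o e : ι} {x w : ι → E} {B : Finset ι} {c : ι → ι → k}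

lemma exists_setup (hperp : S_perp) (hbas : S_bas) (hcoo : S_coo) (hzfa : S_zfa) (he : e ≠ o)
    (hNL : NL L) (hG : Gen L o x w) (hu : ∃ u ∈ L, u o = 0 ∧ u e ≠ 0) :
    ∃ B c, Setup L o e x w B c := by
  obtain ⟨B, hB, hoB, heB⟩ := (hbas k ι L o (hNL.1 o)).2.2 e hu
  obtain ⟨c, hc⟩ := hcoo k ι L B hB
  obtain ⟨h1, h2⟩ := hzfa k ι E L B o x w hB hoB hG
  refine ⟨B, c, he, hoB, heB, hG, (hc E x w).1.1 hG.hx, (hc E x w).2.1 hG.hw, ?_, ?_, h1, h2⟩
  · intro u hu
    refine (hc k u u).1.1 ?_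
    intro a ha
    have := ha u hu
    simpa [mul_comm] using this
  · intro u hu
    refine (hperp k ι L).1 u fun a ha => ?_
    have := (hc k u u).1.2 hu a ha
    simpa [mul_comm] using this

/-- the set of the coordinates different from `e` -/
abbrev SS (o e : ι) (he : e ≠ o) : Set {i // i ≠ o} := {j | j ≠ ⟨e, he⟩}

/-- the coordinate family -/
abbrev zz (o : ι) (B : Finset ι) (x w : ι → E) : {i // i ≠ o} → E := fun i => zf B x w i

omit [Fintype ι] in
lemma z_one {v : Valuation E ℤᵐ⁰} (he : e ≠ o) (hR : RInd k v (zz o B x w) (SS o e he)) (i : ι)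
    (hio : i ≠ o) (hie : i ≠ e) : v (zf B x w i) = 1 := by
  have h0 : (⟨i, hio⟩ : {i // i ≠ o}) ∈ SS o e he := by
    intro h
    exact hie (congrArg Subtype.val h)
  have := hR (X ⟨⟨i, hio⟩, h0⟩) (X_ne_zero _)
  rwa [aeval_X] at this

lemma x_le (hS : Setup L o e x w B c) {v : Valuation E ℤᵐ⁰} (ht : Triv k v)
    (hxe : v (x e) < 1) (hR : RInd k v (zz o B x w) (SS o e hS.he)) :
    (∀ i, v (x i) ≤ 1) ∧ (∀ i ∈ B, i ≠ e → v (x i) = 1) := by
  have h1 : ∀ i ∈ B, i ≠ e → v (x i) = 1 := by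
    intro i hi hie
    by_cases hio : i = o
    · rw [hio, hS.hG.xo, map_one]
    · have := z_one hS.he hR i hio hie
      rwa [zf, if_pos hi] at this
  have h2 : ∀ i ∈ B, v (x i) ≤ 1 := by
    intro i hi
    by_cases hie : i = e
    · rw [hie]
      exact hxe.le
    · exact (h1 i hi hie).le
  refine ⟨fun i => ?_, h1⟩
  by_cases hi : i ∈ B
  · exact h2 i hi
  · rw [hS.hxB i hi]
    exact v_lin ht B _ _ h2

lemma w_le (hS : Setup L o e x w B c) {v : Valuation E ℤᵐ⁰} (ht : Triv k v)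
    (hR : RInd k v (zz o B x w) (SS o e hS.he)) :
    (∀ i, v (w i) ≤ 1) ∧ (∀ i ∉ B, v (w i) = 1) := by
  have h1 : ∀ i ∉ B, v (w i) = 1 := by
    intro i hi
    have hio : i ≠ o := fun h => hi (h ▸ hS.ho)
    have hie : i ≠ e := fun h => hi (h ▸ hS.heB)
    have := z_one hS.he hR i hio hie
    rwa [zf, if_neg hi] at this
  refine ⟨fun i => ?_, h1⟩
  by_cases hi : i ∈ B
  · rw [hS.hwB i hi, Valuation.map_neg]
    exact v_lin ht Bᶜ _ _ fun j hj => (h1 j (Finset.mem_compl.1 hj)).le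
  · exact (h1 i hi).le

omit [Fintype ι] in
/-- a nonzero linear form in the coordinates different from `e` has value one -/
lemma lin_one {v : Valuation E ℤᵐ⁰} (he : e ≠ o) (hR : RInd k v (zz o B x w) (SS o e he))
    (a : ι → k) (a0 : k) (s : Finset ι) (hs : ∀ i ∈ s, i ≠ o ∧ i ≠ e)
    (ha : a0 ≠ 0 ∨ ∃ i ∈ s, a i ≠ 0) :
    v (algebraMap k E a0 + ∑ i ∈ s, algebraMap k E (a i) * zf B x w i) = 1 := by
  classical
  let φ : {i // i ∈ s} → SS o e he := fun i => ⟨⟨i.1, (hs i.1 i.2).1⟩, fun h =>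
    (hs i.1 i.2).2 (congrArg Subtype.val h)⟩
  have hφ : Function.Injective φ := by
    intro i j hij
    have h1 := congrArg (fun t : SS o e he => t.1.1) hij
    exact Subtype.ext h1
  let G : MvPolynomial (SS o e he) k := C a0 + ∑ i ∈ s.attach, C (a i) * X (φ i)
  have hG : G ≠ 0 := by
    intro h0
    rcases ha with h | ⟨i, hi, hai⟩
    · have h1 := congrArg (coeff 0) h0
      simp [G, coeff_C_mul, coeff_sum, coeff_X] at h1
      exact h h1
    · have h1 := congrArg (coeff (Finsupp.single (φ ⟨i, hi⟩) 1)) h0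
      rw [coeff_zero, coeff_add, coeff_C, if_neg (by
        intro h2
        have := congrArg (fun t : (SS o e he) →₀ ℕ => t (φ ⟨i, hi⟩)) h2
        simp at this), zero_add, coeff_sum, Finset.sum_eq_single ⟨i, hi⟩] at h1
      · rw [coeff_C_mul, coeff_X, if_pos rfl, mul_one] at h1
        exact hai h1
      · intro j _ hj
        rw [coeff_C_mul, coeff_X, if_neg, mul_zero]
        intro h2
        apply hj
        exact hφ (Finsupp.single_left_injective one_ne_zero h2)
      · intro h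
        exact absurd (Finset.mem_attach _ _) h
  have h1 := hR G hG
  have h2 : aeval (fun j : SS o e he => zz o B x w j) G =
      algebraMap k E a0 + ∑ i ∈ s, algebraMap k E (a i) * zf B x w i := by
    rw [← Finset.sum_attach s]
    simp [G, φ]
  rwa [h2] at h1

lemma we_one (hS : Setup L o e x w B c) (hNL : NL L) {v : Valuation E ℤᵐ⁰}
    (hR : RInd k v (zz o B x w) (SS o e hS.he)) : v (w e) = 1 := by
  have hex : ∃ j ∈ Bᶜ, c j e ≠ 0 := by
    by_contra hcon
    push Not at hcon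
    apply hNL.2 e
    refine hS.hL' _ fun j hj => ?_
    have hje : j ≠ e := fun h => hj (h ▸ hS.heB)
    rw [Pi.single_eq_of_ne hje, Finset.sum_eq_single e]
    · rw [hcon j (Finset.mem_compl.2 hj), zero_mul]
    · intro i _ hi
      rw [Pi.single_eq_of_ne hi, mul_zero]
    · intro h
      exact absurd hS.heB h
  have h1 := lin_one hS.he hR (fun j => c j e) 0 Bᶜ (fun j hj =>
    ⟨fun h => (Finset.mem_compl.1 hj) (h ▸ hS.ho), fun h => (Finset.mem_compl.1 hj) (h ▸ hS.heB)⟩)
    (Or.inr hex)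
  rw [map_zero, zero_add] at h1
  rw [hS.hwB e hS.heB, Valuation.map_neg, ← h1]
  congr 1
  refine Finset.sum_congr rfl fun j hj => ?_
  rw [zf, if_neg (Finset.mem_compl.1 hj)]

lemma rho_y {κ : Type} [Field κ] [Algebra k κ] {v : Valuation E ℤᵐ⁰} {ρ : E → κ}
    (hρ : Place k v ρ) {a b : E} (ha : v a ≤ 1) (hb : v b ≤ 1) :
    ρ (a ^ 2 * b) = ρ a ^ 2 * ρ b := by
  have h1 : v (a * a) ≤ 1 := by
    rw [map_mul]
    exact mul_le_one' ha ha
  rw [pow_two, hρ.mul _ _ h1 hb, hρ.mul _ _ ha ha, pow_two]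

lemma y_le {v : Valuation E ℤᵐ⁰} {a b : E} (ha : v a ≤ 1) (hb : v b ≤ 1) :
    v (a ^ 2 * b) ≤ 1 := by
  rw [map_mul, map_pow]
  exact mul_le_one' (pow_le_one' ha 2) hb

/-- the residue point is generic -/
lemma gen_res (hplb : S_plb) (hperp : S_perp) (hres : S_res) (hS : Setup L o e x w B c)
    {v : Valuation E ℤᵐ⁰} (ht : Triv k v) (hxe : v (x e) < 1)
    (hR : RInd k v (zz o B x w) (SS o e hS.he)) {κ : Type} [Field κ] [Algebra k κ] {ρ : E → κ}
    (hρ : Place k v ρ) :
    Gen (con L e) ⟨o, hS.he.symm⟩ (fun i : {i // i ≠ e} => ρ (x i)) (fun i => ρ (w i)) := by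
  have hx := (x_le hS ht hxe hR).1
  have hw := (w_le hS ht hR).1
  have hz : ∀ j : {i // i ≠ o}, v (zz o B x w j) ≤ 1 := by
    intro j
    show v (zf B x w j) ≤ 1
    rw [zf]
    split_ifs
    · exact hx _
    · exact hw _
  refine ⟨?_, ?_, ?_, ?_, ?_⟩
  · show ρ (x o) = 1
    rw [hS.hG.xo, rho_one hρ]
  · intro a ha
    obtain ⟨c', hc'⟩ := (hperp k ι L).2.2.2 e a ha
    have h1 := congrArg ρ (hS.hG.hx _ hc')
    rw [rho_lin hρ _ _ _ fun i _ => hx i, rho_zero hρ, Fintype.sum_eq_add_sum_subtype_ne _ e,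
      rho_lt hρ hxe, mul_zero, zero_add] at h1
    rw [← h1]
    refine Finset.sum_congr rfl fun i _ => ?_
    rw [dif_pos i.2]
  · intro u' hu'
    obtain ⟨u, hu, rfl⟩ := Submodule.mem_map.1 hu'
    have hue : u e = 0 := hu.2
    have h1 := congrArg ρ (hS.hG.hw u hu.1)
    rw [rho_lin hρ _ _ _ fun i _ => hw i, rho_zero hρ, Fintype.sum_eq_add_sum_subtype_ne _ e,
      hue, map_zero, zero_mul, zero_add] at h1
    exact h1
  · rw [eq_top_iff]
    intro y _
    obtain ⟨a, ha, rfl⟩ := hρ.surj y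
    obtain ⟨b, hb, hab⟩ := (hres k E {i // i ≠ o} (zz o B x w) ⟨e, hS.he⟩ hS.ai hS.ge v ht
      (by
        show v (zf B x w e) < 1
        rw [zf, if_pos hS.heB]
        exact hxe) hR).2.1 a ha
    have hb1 : v b ≤ 1 := by
      have h1 : b = a - (a - b) := by ring
      rw [h1]
      exact (v.map_sub _ _).trans (max_le ha hab.le)
    have h1 : ρ a = ρ b := by
      have h2 := hρ.add b (a - b) hb1 hab.le
      rw [rho_lt hρ hab, add_zero] at h2
      rw [← h2]
      congr 1
      ring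
    rw [h1]
    refine rho_adjoin hplb hρ (zz o B x w) _ hR _ (fun j hj => ?_) b hb hb1
    have hje : j.1 ≠ e := fun h => hj (Subtype.ext h)
    show ρ (zf B x w j) ∈ _
    rw [zf]
    split_ifs
    · exact IntermediateField.subset_adjoin k _ (Or.inl ⟨⟨j.1, hje⟩, rfl⟩)
    · exact IntermediateField.subset_adjoin k _ (Or.inr ⟨⟨j.1, hje⟩, rfl⟩)
  · have h1 := ((hplb k E ℤᵐ⁰ κ v ρ hρ {i // i ≠ o} (zz o B x w) hz).2 (SS o e hS.he)).1 hR
    refine ⟨_, h1.comp (fun i : {i : {i // i ≠ e} // i ≠ ⟨o, hS.he.symm⟩} =>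
      (⟨⟨i.1.1, fun h => i.2 (Subtype.ext h)⟩, fun h => i.1.2 (congrArg Subtype.val h)⟩ :
        SS o e hS.he)) ?_⟩
    intro i j hij
    have h2 := congrArg (fun t : SS o e hS.he => t.1.1) hij
    exact Subtype.ext (Subtype.ext h2)

/-- a place of type B has independent residues of the coordinates different from `e` -/
lemma rind (hplc : S_plc) (hplb : S_plb) (htrd : S_trd) (hS : Setup L o e x w B c)
    {v : Valuation E ℤᵐ⁰} (hv : TypeB k o e x w v) :
    RInd k v (zz o B x w) (SS o e hS.he) := by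
  classical
  have hx : ∀ i, v (x i) ≤ 1 := by
    intro i
    by_cases hi : i = e
    · rw [hi]
      exact hv.xe.le
    · exact (hv.x1 i hi).le
  have hw := hv.w1
  have hz : ∀ j : {i // i ≠ o}, v (zz o B x w j) ≤ 1 := by
    intro j
    show v (zf B x w j) ≤ 1
    rw [zf]
    split_ifs
    · exact hx _
    · exact hw _
  obtain ⟨κ, _, _, ρ, hρ⟩ := hplc k E ℤᵐ⁰ v hv.triv
  set K0 : IntermediateField k κ := IntermediateField.adjoin k
    (Set.range fun j : SS o e hS.he => ρ (zz o B x w j)) with hK0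
  have hzK : ∀ i, i ≠ o → i ≠ e → ρ (zf B x w i) ∈ K0 := by
    intro i hio hie
    exact IntermediateField.subset_adjoin k _
      ⟨⟨⟨i, hio⟩, fun h => hie (congrArg Subtype.val h)⟩, rfl⟩
  have hxB : ∀ i ∈ B, ρ (x i) ∈ K0 := by
    intro i hi
    by_cases hio : i = o
    · rw [hio, hS.hG.xo, rho_one hρ]
      exact one_mem _
    by_cases hie : i = e
    · rw [hie, rho_lt hρ hv.xe]
      exact zero_mem _
    have := hzK i hio hie
    rwa [zf, if_pos hi] at this
  have hxK : ∀ i, ρ (x i) ∈ K0 := by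
    intro i
    by_cases hi : i ∈ B
    · exact hxB i hi
    · rw [hS.hxB i hi, rho_lin hρ _ _ _ fun j _ => hx j]
      exact sum_mem fun j hj => mul_mem (K0.algebraMap_mem _) (hxB j hj)
  have hwB : ∀ i ∉ B, ρ (w i) ∈ K0 := by
    intro i hi
    have hio : i ≠ o := fun h => hi (h ▸ hS.ho)
    have hie : i ≠ e := fun h => hi (h ▸ hS.heB)
    have := hzK i hio hie
    rwa [zf, if_neg hi] at this
  have hwK : ∀ i, ρ (w i) ∈ K0 := by
    intro i
    by_cases hi : i ∈ B
    · rw [hS.hwB i hi, rho_neg hρ (v_lin hv.triv _ _ _ fun j _ => hw j),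
        rho_lin hρ _ _ _ fun j _ => hw j]
      exact neg_mem (sum_mem fun j hj => mul_mem (K0.algebraMap_mem _)
        (hwB j (Finset.mem_compl.1 hj)))
    · exact hwB i hi
  have hyK : ∀ i, ρ (x i ^ 2 * w i) ∈ K0 := by
    intro i
    rw [rho_y hρ (hx i) (hw i)]
    exact mul_mem (pow_mem (hxK i) 2) (hwK i)
  have h1 := ((hplb k E ℤᵐ⁰ κ v ρ hρ ι (fun i => x i ^ 2 * w i)
    fun i => y_le (hx i) (hw i)).2 _).1 hv.ri
  have h2 : AlgebraicIndependent k (fun j : SS o e hS.he => (⟨_, hyK j.1.1⟩ : K0)) := by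
    refine AlgebraicIndependent.of_comp K0.val ?_
    refine h1.comp (fun j : SS o e hS.he => (⟨j.1.1, j.1.2, fun h => j.2 (Subtype.ext h)⟩ :
      {i : ι | i ≠ o ∧ i ≠ e})) ?_
    intro i j hij
    have h3 := congrArg (fun t : {i : ι | i ≠ o ∧ i ≠ e} => t.1) hij
    exact Subtype.ext (Subtype.ext h3)
  let s : SS o e hS.he → K0 := fun j => ⟨ρ (zz o B x w j), IntermediateField.subset_adjoin k _
    ⟨j, rfl⟩⟩
  have h3 : IntermediateField.adjoin k (Set.range s) = ⊤ := by
    refine IntermediateField.lift_injective K0 ?_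
    rw [IntermediateField.lift_adjoin, IntermediateField.lift_top, ← Set.range_comp]
    rfl
  let _ : Fintype (SS o e hS.he) := Fintype.ofFinite _
  have h4 := ((htrd k K0 (SS o e hS.he) (SS o e hS.he) s _ h3 h2).2 rfl).1
  have h5 := h4.map' (f := K0.val) K0.val.injective
  exact ((hplb k E ℤᵐ⁰ κ v ρ hρ {i // i ≠ o} (zz o B x w) hz).2 (SS o e hS.he)).2 h5

end core

theorem tyb : S_plc → S_plb → S_trd → S_perp → S_bas → S_coo → S_zfa → S_res → S_exv → S_tyb := by
  intro hplc hplb htrd hperp hbas hcoo hzfa hres hexv k ι E _ _ _ _ _ L o e x w he hNL hG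
  constructor
  · intro v hv
    have hex : ∃ u ∈ L, u o = 0 ∧ u e ≠ 0 := by
      by_contra hcon
      push Not at hcon
      obtain ⟨c, hc⟩ := (hperp k ι L).2.1 {o} e (fun u hu h => hcon u hu (h o (mem_singleton_self o)))
      have h1 := hG.hx (Pi.single e 1 - c o • Pi.single o 1) (by
        intro u hu
        have h2 := hc u hu
        rw [sum_singleton] at h2
        simp only [Pi.sub_apply, Pi.smul_apply, smul_eq_mul, mul_sub, Finset.sum_sub_distrib]
        have h3 : ∑ i, u i * (Pi.single e 1 : ι → k) i = u e := by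
          simp [Pi.single_apply]
        have h4 : ∑ i, u i * (c o * (Pi.single o 1 : ι → k) i) = c o * u o := by
          simp [Pi.single_apply, mul_comm]
        rw [h3, h4, h2, sub_self])
      have h2 : x e = algebraMap k E (c o) := by
        have h3 : ∑ i, algebraMap k E ((Pi.single e 1 - c o • Pi.single o 1 : ι → k) i) * x i =
            x e - algebraMap k E (c o) * x o := by
          have h4 : ∀ i, algebraMap k E ((Pi.single e 1 - c o • Pi.single o 1 : ι → k) i) * x i =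
              (if i = e then x i else 0) - (if i = o then algebraMap k E (c o) * x i else 0) := by
            intro i
            by_cases h5 : i = e
            · rw [h5]
              simp [Pi.single_apply, he]
            · by_cases h6 : i = o
              · rw [h6]
                simp [Pi.single_apply, he.symm]
              · simp [Pi.single_apply, h5, h6]
          rw [Finset.sum_congr rfl fun i _ => h4 i, Finset.sum_sub_distrib]
          simp
        rw [h3, hG.xo, mul_one] at h1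
        exact sub_eq_zero.1 h1
      have h3 : c o = 0 := by
        by_contra h4
        have h5 := hv.xe
        rw [h2, hv.triv _ h4] at h5
        exact lt_irrefl _ h5
      obtain ⟨u, hu, hue⟩ := hNL.1 e
      apply hue
      rw [hc u hu, sum_singleton, h3, zero_mul]
    obtain ⟨B, c, hS⟩ := exists_setup hperp hbas hcoo hzfa he hNL hG hex
    have hR := rind hplc hplb htrd hS hv
    have hze : zz o B x w ⟨e, he⟩ = x e := by
      show zf B x w e = x e
      rw [zf, if_pos hS.heB]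
    have hr := hres k E {i // i ≠ o} (zz o B x w) ⟨e, he⟩ hS.ai hS.ge v hv.triv
      (by rw [hze]; exact hv.xe) hR
    have hxe := hr.2.2.1 hv.surj
    rw [hze] at hxe
    refine ⟨hex, hxe, we_one hS hNL hR, fun v' hv' => ?_, fun κ _ _ ρ hρ => ⟨?_, ?_⟩⟩
    · have hR' := rind hplc hplb htrd hS hv'
      have hr' := hres k E {i // i ≠ o} (zz o B x w) ⟨e, he⟩ hS.ai hS.ge v' hv'.triv
        (by rw [hze]; exact hv'.xe) hR'
      have hxe' := hr'.2.2.1 hv'.surj
      refine hr.2.2.2 v' hv'.triv ?_ hR'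
      rw [hxe', hze, hxe]
    · exact gen_res hplb hperp hres hS hv.triv hv.xe hR hρ
    · have hx : ∀ i, v (x i) ≤ 1 := (x_le hS hv.triv hv.xe hR).1
      have h1 := ((hplb k E ℤᵐ⁰ κ v ρ hρ ι (fun i => x i ^ 2 * w i)
        fun i => y_le (hx i) (hv.w1 i)).2 _).1 hv.ri
      have h2 := h1.comp (fun j : {i : {i // i ≠ e} // i ≠ ⟨o, he.symm⟩} =>
        (⟨j.1.1, fun h => j.2 (Subtype.ext h), j.1.2⟩ : {i : ι | i ≠ o ∧ i ≠ e})) (by
          intro i j hij
          have h3 := congrArg (fun t : {i : ι | i ≠ o ∧ i ≠ e} => t.1) hij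
          exact Subtype.ext (Subtype.ext h3))
      have h3 : (fun i : {i : {i // i ≠ e} // i ≠ ⟨o, he.symm⟩} =>
          ρ (x i.1.1) ^ 2 * ρ (w i.1.1)) = (fun j : {i : ι | i ≠ o ∧ i ≠ e} =>
            ρ (x j ^ 2 * w j)) ∘ (fun j : {i : {i // i ≠ e} // i ≠ ⟨o, he.symm⟩} =>
        (⟨j.1.1, fun h => j.2 (Subtype.ext h), j.1.2⟩ : {i : ι | i ≠ o ∧ i ≠ e})) := by
        funext i
        exact (rho_y hρ (hx _) (hv.w1 _)).symm
      rw [Good, h3]
      exact h2
  · intro hcon
    have hex : ∃ u ∈ L, u o = 0 ∧ u e ≠ 0 := by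
      obtain ⟨u, hu, hue⟩ := hNL.1 e
      obtain ⟨u', hu', hu'e, hu'o⟩ := hcon o he.symm
      refine ⟨u - (u o / u' o) • u', L.sub_mem hu (L.smul_mem _ hu'), ?_, ?_⟩
      · simp [hu'o]
      · simpa [hu'e] using hue
    obtain ⟨B, c, hS⟩ := exists_setup hperp hbas hcoo hzfa he hNL hG hex
    have hze : zz o B x w ⟨e, he⟩ = x e := by
      show zf B x w e = x e
      rw [zf, if_pos hS.heB]
    obtain ⟨v, hsurj, ht, hve, hR⟩ := hexv k E {i // i ≠ o} (zz o B x w) ⟨e, he⟩ hS.ai hS.ge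
    rw [hze] at hve
    have hxe : v (x e) < 1 := by
      rw [hve, ← exp_zero]
      exact exp_lt_exp.2 (by norm_num)
    obtain ⟨hx, hxB⟩ := x_le hS ht hxe hR
    obtain ⟨hw, -⟩ := w_le hS ht hR
    have hx1 : ∀ i, i ≠ e → v (x i) = 1 := by
      intro i hie
      by_cases hi : i ∈ B
      · exact hxB i hi hie
      have hne : c i o ≠ 0 ∨ ∃ j ∈ (B.erase e).erase o, c i j ≠ 0 := by
        by_contra hno
        push Not at hno
        obtain ⟨u, hu, hue, hui⟩ := hcon i hie
        apply hui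
        rw [hS.hL u hu i hi]
        refine Finset.sum_eq_zero fun j hj => ?_
        by_cases hje : j = e
        · rw [hje, hue, mul_zero]
        by_cases hjo : j = o
        · rw [hjo, hno.1, zero_mul]
        rw [hno.2 j (mem_erase.2 ⟨hjo, mem_erase.2 ⟨hje, hj⟩⟩), zero_mul]
      have h1 := lin_one he hR (c i) (c i o) ((B.erase e).erase o)
        (fun j hj => ⟨(mem_erase.1 hj).1, (mem_erase.1 (mem_erase.1 hj).2).1⟩) hne
      have h2 : x i = algebraMap k E (c i e) * x e + (algebraMap k E (c i o) +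
          ∑ j ∈ (B.erase e).erase o, algebraMap k E (c i j) * zf B x w j) := by
        rw [hS.hxB i hi, ← Finset.add_sum_erase B _ hS.heB, ← Finset.add_sum_erase (B.erase e) _
          (mem_erase.2 ⟨he.symm, hS.ho⟩), hG.xo, mul_one]
        congr 2
        refine Finset.sum_congr rfl fun j hj => ?_
        rw [zf, if_pos (mem_erase.1 (mem_erase.1 hj).2).2]
      have h3 : v (algebraMap k E (c i e) * x e) < 1 := by
        by_cases h4 : c i e = 0
        · rw [h4, map_zero, zero_mul, map_zero]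
          exact zero_lt_one
        · rw [map_mul, ht _ h4, one_mul]
          exact hxe
      rw [h2, Valuation.map_add_eq_of_lt_right _ (by rw [h1]; exact h3), h1]
    refine ⟨v, hsurj, ht, hx1, hxe, hw, fun κ _ _ ρ hρ =>
      ⟨gen_res hplb hperp hres hS ht hxe hR hρ, fun hgood => ?_⟩⟩
    refine ⟨hsurj, ht, hx1, hxe, hw, ?_⟩
    refine ((hplb k E ℤᵐ⁰ κ v ρ hρ ι (fun i => x i ^ 2 * w i)
        fun i => y_le (hx i) (hw i)).2 _).2 ?_
    have h2 := AlgebraicIndependent.comp hgood (fun j : {i : ι | i ≠ o ∧ i ≠ e} =>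
        (⟨⟨j.1, j.2.2⟩, fun h => j.2.1 (congrArg Subtype.val h)⟩ :
          {i : {i // i ≠ e} // i ≠ ⟨o, he.symm⟩})) (by
          intro i j hij
          have h3 := congrArg (fun t : {i : {i // i ≠ e} // i ≠ ⟨o, he.symm⟩} => t.1.1) hij
          exact Subtype.ext h3)
    have h3 : (fun j : {i : ι | i ≠ o ∧ i ≠ e} => ρ (x j ^ 2 * w j)) =
        (fun i : {i : {i // i ≠ e} // i ≠ ⟨o, he.symm⟩} => ρ (x i.1.1) ^ 2 * ρ (w i.1.1)) ∘
        (fun j : {i : ι | i ≠ o ∧ i ≠ e} =>
        (⟨⟨j.1, j.2.2⟩, fun h => j.2.1 (congrArg Subtype.val h)⟩ :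
          {i : {i // i ≠ e} // i ≠ ⟨o, he.symm⟩})) := by
      funext i
      exact rho_y hρ (hx _) (hw _)
    rw [h3]
    exact h2

end Pool.Agent.Q111.RL.TB
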